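import Pool.Agent.U115.WN.Stm
import Pool.Agent.U580.WM.RED
import Pool.Agent.U333.WM.COV
import Pool.Agent.U283.WM.CNTL

/-!
# Project WN, package LUB: the number of lattices of covolume at most `X`
-/

set_option autoImplicit false

open scoped Classical
open Matrix

namespace Pool.Agent.U618.WN

open Pool.Agent.U115.WM Pool.Agent.U115.WN

/-- the terms of the geometric sum -/
def ff (n k d m : ℕ) : ℝ := ((2 : ℝ) ^ (k * m + d)) ^ n

theorem ff_pos (n k d m : ℕ) : 0 < ff n k d m := by unfold ff; positivity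

theorem ff_step {n k : ℕ} (hn : 1 ≤ n) (hk : 1 ≤ k) (d m : ℕ) : 2 * ff n k d m ≤ ff n k d (m + 1) := by
  unfold ff
  rw [← pow_mul, ← pow_mul, ← pow_succ']
  refine pow_le_pow_right₀ (by norm_num) ?_
  have h1 : 1 * 1 ≤ k * n := Nat.mul_le_mul hk hn
  have h2 : (k * (m + 1) + d) * n = (k * m + d) * n + k * n := by ring
  rw [h2]
  omega

theorem ff_sum {n k : ℕ} (hn : 1 ≤ n) (hk : 1 ≤ k) (d R : ℕ) :
    ∑ m ∈ Finset.range R, ff n k d m ≤ ff n k d R := by
  induction R with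
  | zero => simpa using (ff_pos n k d 0).le
  | succ R ih =>
    rw [Finset.sum_range_succ]
    have := ff_step hn hk d R
    linarith

theorem ff_cond {n k : ℕ} (hn : 1 ≤ n) (hk : 1 ≤ k) (d R : ℕ) {Y : ℝ} (hY : 0 ≤ Y) :
    ∑ m ∈ (Finset.range R).filter (fun m => (2 : ℝ) ^ (k * m + d) ≤ Y), ff n k d m ≤ 2 * Y ^ n := by
  induction R with
  | zero => simp only [Finset.range_zero, Finset.filter_empty, Finset.sum_empty]; positivity
  | succ R ih =>
    by_cases hR : (2 : ℝ) ^ (k * R + d) ≤ Y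
    · have h1 : ∑ m ∈ (Finset.range (R + 1)).filter (fun m => (2 : ℝ) ^ (k * m + d) ≤ Y), ff n k d m ≤
          ∑ m ∈ Finset.range (R + 1), ff n k d m :=
        Finset.sum_le_sum_of_subset_of_nonneg (Finset.filter_subset _ _)
          (fun m _ _ => (ff_pos n k d m).le)
      have h2 := ff_sum hn hk d R
      have h3 : ff n k d R ≤ Y ^ n := pow_le_pow_left₀ (by positivity) hR n
      rw [Finset.sum_range_succ] at h1
      linarith
    · rw [Finset.range_add_one, Finset.filter_insert, if_neg hR]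
      exact ih

theorem gap_ge {k : ℕ} (z : Fin k) (hz : z.1 = 0) (e : Fin k → ℕ) :
    (2 : ℝ) ^ (∑ i, (e i - e z)) ≤ gap e := by
  unfold gap
  rw [Finset.prod_pow_eq_pow_sum]
  refine pow_le_pow_right₀ (by norm_num) ?_
  have h1 : ∑ i, (e i - e z) = ∑ i ∈ Finset.univ.erase z, (e i - e z) := by
    rw [← Finset.add_sum_erase _ _ (Finset.mem_univ z)]
    simp
  have h2 : ∑ i ∈ Finset.univ.erase z, (e i - e z) =
      ∑ p ∈ (Finset.univ.erase z).image (fun i => (z, i)), (e p.2 - e p.1) := by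
    rw [Finset.sum_image]
    intro a _ b _ hab
    exact (Prod.mk.inj hab).2
  rw [h1, h2]
  refine Finset.sum_le_sum_of_subset ?_
  intro p hp
  obtain ⟨i, hi, rfl⟩ := Finset.mem_image.1 hp
  have hne : i ≠ z := (Finset.mem_erase.1 hi).1
  refine Finset.mem_filter.2 ⟨Finset.mem_univ _, ?_⟩
  show z < i
  rw [Fin.lt_def, hz]
  rcases Nat.eq_zero_or_pos i.1 with h | h
  · exact absurd (Fin.ext (by rw [h, hz])) hne
  · exact h

theorem gap_pos' {k : ℕ} (e : Fin k → ℕ) : 0 < gap e := by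
  unfold gap
  positivity

theorem vol_eq {k : ℕ} (e : Fin k → ℕ) : vol e = (2 : ℝ) ^ (∑ i, e i) := by
  unfold vol
  rw [Finset.prod_pow_eq_pow_sum]

/-- the types -/
noncomputable def Ty (k : ℕ) (Y : ℝ) : Finset (Fin k → ℕ) :=
  (Fintype.piFinset (fun _ : Fin k => Finset.range (⌊Y⌋₊ + 1))).filter (fun e => Monotone e ∧ vol e ≤ Y)

theorem mem_Ty {k : ℕ} {Y : ℝ} {e : Fin k → ℕ} (he : Monotone e) (hv : vol e ≤ Y) : e ∈ Ty k Y := by
  refine Finset.mem_filter.2 ⟨Fintype.mem_piFinset.2 fun i => Finset.mem_range.2 ?_, he, hv⟩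
  rw [Nat.lt_succ_iff]
  refine Nat.le_floor ?_
  rw [vol_eq] at hv
  have h1 : e i ≤ ∑ j, e j := Finset.single_le_sum (f := e) (fun j _ => Nat.zero_le _) (Finset.mem_univ i)
  have h2 : ((e i : ℕ) : ℝ) ≤ (2 : ℝ) ^ (e i) := by exact_mod_cast (Nat.lt_two_pow_self (n := e i)).le
  have h3 : (2 : ℝ) ^ (e i) ≤ 2 ^ (∑ j, e j) := pow_le_pow_right₀ (by norm_num) h1
  linarith

theorem Ty_sum {n k : ℕ} (hn : 1 ≤ n) (hk : 1 ≤ k) {Y : ℝ} (hY : 0 ≤ Y) :
    ∑ e ∈ Ty k Y, vol e ^ n / gap e ≤ 2 ^ (k + 1) * Y ^ n := by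
  set z : Fin k := ⟨0, hk⟩ with hz
  set E := ⌊Y⌋₊ + 1 with hE
  set D : Finset (Fin k → ℕ) := Fintype.piFinset (fun _ : Fin k => Finset.range E) with hD
  set S : Finset (ℕ × (Fin k → ℕ)) :=
    (Finset.range E ×ˢ D).filter (fun x => (2 : ℝ) ^ (k * x.1 + ∑ i, x.2 i) ≤ Y) with hS
  let F : ℕ × (Fin k → ℕ) → ℝ := fun x => ff n k (∑ i, x.2 i) x.1 * (1 / 2) ^ (∑ i, x.2 i)
  have hF : ∀ x, 0 ≤ F x := fun x => mul_nonneg (ff_pos _ _ _ _).le (by positivity)
  let φ : (Fin k → ℕ) → ℕ × (Fin k → ℕ) := fun e => (e z, fun i => e i - e z)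
  have hrec : ∀ e ∈ Ty k Y, ∀ i, e i = e z + (e i - e z) := by
    intro e he i
    have hm : Monotone e := (Finset.mem_filter.1 he).2.1
    have : e z ≤ e i := hm (by rw [Fin.le_def]; exact Nat.zero_le _)
    omega
  have hsum : ∀ e ∈ Ty k Y, ∑ i, e i = k * e z + ∑ i, (e i - e z) := by
    intro e he
    calc ∑ i, e i = ∑ i, (e z + (e i - e z)) := Finset.sum_congr rfl fun i _ => hrec e he i
      _ = _ := by rw [Finset.sum_add_distrib]; simp
  have hinj : Set.InjOn φ (Ty k Y : Set (Fin k → ℕ)) := by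
    intro e he e' he' h
    have h1 : e z = e' z := congrArg Prod.fst h
    have h2 : (fun i => e i - e z) = fun i => e' i - e' z := congrArg Prod.snd h
    funext i
    rw [hrec e he i, hrec e' he' i, h1]
    have h3 : e i - e z = e' i - e' z := congrFun h2 i
    omega
  have hmap : ∀ e ∈ Ty k Y, φ e ∈ S := by
    intro e he
    obtain ⟨h1, h2, h3⟩ := Finset.mem_filter.1 he
    rw [Fintype.mem_piFinset] at h1
    refine Finset.mem_filter.2 ⟨Finset.mem_product.2 ⟨h1 z, Fintype.mem_piFinset.2 fun i => ?_⟩, ?_⟩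
    · have := Finset.mem_range.1 (h1 i)
      show e i - e z ∈ Finset.range E
      exact Finset.mem_range.2 (by omega)
    · show (2 : ℝ) ^ (k * e z + ∑ i, (e i - e z)) ≤ Y
      rw [← hsum e he, ← vol_eq]
      exact h3
  have hterm : ∀ e ∈ Ty k Y, vol e ^ n / gap e ≤ F (φ e) := by
    intro e he
    have h1 := gap_ge z rfl e
    have h2 : vol e ^ n = ff n k (∑ i, (e i - e z)) (e z) := by
      rw [vol_eq, hsum e he]; rfl
    show _ ≤ ff n k (∑ i, (e i - e z)) (e z) * (1 / 2) ^ (∑ i, (e i - e z))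
    rw [← h2, div_pow, one_pow, mul_one_div]
    exact div_le_div_of_nonneg_left (by unfold vol; positivity) (by positivity) h1
  calc ∑ e ∈ Ty k Y, vol e ^ n / gap e ≤ ∑ e ∈ Ty k Y, F (φ e) := Finset.sum_le_sum hterm
    _ = ∑ x ∈ (Ty k Y).image φ, F x := (Finset.sum_image hinj).symm
    _ ≤ ∑ x ∈ S, F x := by
        refine Finset.sum_le_sum_of_subset_of_nonneg ?_ (fun x _ _ => hF x)
        intro x hx
        obtain ⟨e, he, rfl⟩ := Finset.mem_image.1 hx
        exact hmap e he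
    _ = ∑ δ ∈ D, (∑ m ∈ (Finset.range E).filter (fun m => (2 : ℝ) ^ (k * m + ∑ i, δ i) ≤ Y),
          ff n k (∑ i, δ i) m) * (1 / 2) ^ (∑ i, δ i) := by
        rw [hS, Finset.sum_filter, Finset.sum_product_right]
        refine Finset.sum_congr rfl fun δ _ => ?_
        rw [Finset.sum_mul, Finset.sum_filter]
    _ ≤ ∑ δ ∈ D, (2 * Y ^ n) * (1 / 2) ^ (∑ i, δ i) :=
        Finset.sum_le_sum fun δ _ => mul_le_mul_of_nonneg_right (ff_cond hn hk _ _ hY) (by positivity)
    _ = (2 * Y ^ n) * ∏ i : Fin k, ∑ m ∈ Finset.range E, (1 / 2 : ℝ) ^ m := by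
        rw [← Finset.mul_sum, Finset.prod_univ_sum]
        congr 1
        refine Finset.sum_congr rfl fun δ _ => ?_
        rw [Finset.prod_pow_eq_pow_sum]
    _ ≤ (2 * Y ^ n) * ∏ i : Fin k, (2 : ℝ) := by
        refine mul_le_mul_of_nonneg_left (Finset.prod_le_prod (fun i _ => by positivity) fun i _ => ?_)
          (by positivity)
        have := sum_geometric_two_le E
        simpa using this
    _ = 2 ^ (k + 1) * Y ^ n := by
        rw [Finset.prod_const, Finset.card_univ, Fintype.card_fin]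
        ring

theorem LUB (hR : S_RED) (hCOV : S_COV) (hCN : S_CNTL) : S_LUB := by
  intro n k hn hk
  obtain ⟨C₀, hC₀, hred⟩ := hR n k
  obtain ⟨C₁, hC₁, hcnt⟩ := hCN n k
  let T : (Fin k → ℕ) → Set (Set (Fin n → ℤ)) := fun e =>
    {Λ | ∃ B : Matrix (Fin n) (Fin k) ℤ, Inj B ∧ lat B = Λ ∧ ∀ i, N B i < 4 ^ (e i + 1)}
  have hTfin : ∀ e, Monotone e → (T e).Finite := by
    intro e he
    by_contra hinf
    obtain ⟨F, hF, hcard⟩ := Set.Infinite.exists_subset_card_eq hinf (⌊C₁ * vol e ^ n / gap e⌋₊ + 1)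
    have h1 := hcnt e he F (fun Λ hΛ => hF hΛ)
    rw [← le_div_iff₀ (gap_pos' e), hcard] at h1
    have h2 := Nat.lt_floor_add_one (C₁ * vol e ^ n / gap e)
    push_cast at h1
    linarith
  have hTcard : ∀ (e : Fin k → ℕ) (he : Monotone e), ((hTfin e he).toFinset.card : ℝ) ≤
      C₁ * (vol e ^ n / gap e) := by
    intro e he
    have h1 := hcnt e he (hTfin e he).toFinset (fun Λ hΛ => (hTfin e he).mem_toFinset.1 hΛ)
    rw [← le_div_iff₀ (gap_pos' e)] at h1
    rw [← mul_div_assoc]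
    exact h1
  refine ⟨C₁ * (2 ^ (k + 1) * √C₀ ^ n), fun X hX => ?_⟩
  set Y := √C₀ * X with hY
  have hY0 : 0 ≤ Y := by positivity
  let U : Finset (Set (Fin n → ℤ)) := (Ty k Y).attach.biUnion fun e =>
    (hTfin e.1 (Finset.mem_filter.1 e.2).2.1).toFinset
  have hsub : {Λ : Set (Fin n → ℤ) | ∃ B : Matrix (Fin n) (Fin k) ℤ, Inj B ∧ lat B = Λ ∧ cov B ≤ X} ⊆
      (U : Set (Set (Fin n → ℤ))) := by
    rintro Λ ⟨B, hB, hΛ, hc⟩
    obtain ⟨V, hV, hr⟩ := hred B hB
    obtain ⟨h1, h2, h3⟩ := hCOV.2.1 n k B V hV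
    set B' := B * V with hB'
    have hpos : ∀ i, 1 ≤ N B' i := hr.pos
    have hlog : ∀ i, (4 : ℤ) ^ (typ B' i) ≤ N B' i ∧ N B' i < 4 ^ (typ B' i + 1) := by
      intro i
      have hne : (N B' i).toNat ≠ 0 := by have := hpos i; omega
      have e1 : ((N B' i).toNat : ℤ) = N B' i := Int.toNat_of_nonneg (by have := hpos i; omega)
      constructor
      · have := Nat.pow_log_le_self 4 hne
        rw [← e1]
        exact_mod_cast this
      · have := Nat.lt_pow_succ_log_self (b := 4) (by norm_num) (N B' i).toNat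
        rw [← e1]
        exact_mod_cast this
    have hmono : Monotone (typ B') := by
      intro i j hij
      unfold typ
      exact Nat.log_mono_right (Int.toNat_le_toNat (hr.mono hij))
    have hvol : vol (typ B') ≤ Y := by
      have e1 : vol (typ B') ^ 2 ≤ C₀ * X ^ 2 := by
        have e2 : vol (typ B') ^ 2 = ∏ i, ((4 : ℝ) ^ (typ B' i)) := by
          unfold vol
          rw [← Finset.prod_pow]
          refine Finset.prod_congr rfl fun i _ => ?_
          rw [← pow_mul, mul_comm, pow_mul]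
          norm_num
        have e3 : ∏ i, ((4 : ℝ) ^ (typ B' i)) ≤ ∏ i, (N B' i : ℝ) := by
          refine Finset.prod_le_prod (fun i _ => by positivity) fun i _ => ?_
          exact_mod_cast (hlog i).1
        have e4 : ((B'ᵀ * B').det : ℝ) ≤ X ^ 2 := by
          rw [h3]
          unfold cov at hc
          have e5 : (0 : ℝ) ≤ ((Bᵀ * B).det : ℝ) := by
            have := hCOV.2.2 n k B hB
            exact_mod_cast (by omega : (0 : ℤ) ≤ (Bᵀ * B).det)
          calc ((Bᵀ * B).det : ℝ) = √((Bᵀ * B).det : ℝ) ^ 2 := (Real.sq_sqrt e5).symm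
            _ ≤ X ^ 2 := pow_le_pow_left₀ (Real.sqrt_nonneg _) hc 2
        calc vol (typ B') ^ 2 ≤ ∏ i, (N B' i : ℝ) := by rw [e2]; exact e3
          _ ≤ C₀ * ((B'ᵀ * B').det : ℝ) := hr.low
          _ ≤ C₀ * X ^ 2 := mul_le_mul_of_nonneg_left e4 (by linarith)
      refine (sq_le_sq₀ (by unfold vol; positivity) hY0).1 ?_
      rw [hY, mul_pow, Real.sq_sqrt (by linarith)]
      exact e1
    have hmem : typ B' ∈ Ty k Y := mem_Ty hmono hvol
    simp only [U, Finset.coe_biUnion, Set.mem_iUnion]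
    refine ⟨⟨typ B', hmem⟩, by simp, ?_⟩
    rw [Set.Finite.coe_toFinset]
    exact ⟨B', hr.inj, by rw [h1, hΛ], fun i => (hlog i).2⟩
  refine ⟨(Finset.finite_toSet U).subset hsub, ?_⟩
  have h1 : ({Λ : Set (Fin n → ℤ) | ∃ B : Matrix (Fin n) (Fin k) ℤ, Inj B ∧ lat B = Λ ∧
      cov B ≤ X}.ncard : ℝ) ≤ (U.card : ℝ) := by
    rw [← Set.ncard_coe_finset U]
    exact_mod_cast Set.ncard_le_ncard hsub (Finset.finite_toSet U)
  calc _ ≤ (U.card : ℝ) := h1
    _ ≤ ∑ e ∈ (Ty k Y).attach, ((hTfin e.1 (Finset.mem_filter.1 e.2).2.1).toFinset.card : ℝ) := by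
        exact_mod_cast Finset.card_biUnion_le
    _ ≤ ∑ e ∈ (Ty k Y).attach, C₁ * (vol e.1 ^ n / gap e.1) :=
        Finset.sum_le_sum fun e _ => hTcard e.1 (Finset.mem_filter.1 e.2).2.1
    _ = C₁ * ∑ e ∈ Ty k Y, vol e ^ n / gap e := by
        rw [Finset.sum_attach (Ty k Y) (fun e => C₁ * (vol e ^ n / gap e)), Finset.mul_sum]
    _ ≤ C₁ * (2 ^ (k + 1) * Y ^ n) := mul_le_mul_of_nonneg_left (Ty_sum hn hk hY0) (by linarith)
    _ = C₁ * (2 ^ (k + 1) * √C₀ ^ n) * X ^ n := by rw [hY, mul_pow]; ring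

/-- the number of lattices of rank `k` and covolume at most `X` -/
theorem t_LUB : S_LUB :=
  LUB Pool.Agent.U580.WM.t_RED Pool.Agent.U333.WM.t_COV Pool.Agent.U283.WM.CNTL.t_CNTL

end Pool.Agent.U618.WN
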